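import Pool.Agent.LD.L.Defs
import Pool.Agent.LD.L.Deg
import Pool.Agent.QD.In.Ex

/-!
# MD/P-Defs: places over a place, odd local degrees, potential
-/

namespace Pool.Agent.MD

open NumberField IsDedekindDomain Pool.Agent.HWR Pool.Agent.QD Pool.Agent.H73.DU Pool.Agent.LD

theorem over_fin {K : Type} (F : Type) [Field K] [NumberField K] [Field F] [NumberField F]
    [Algebra K F] (v : HeightOneSpectrum (𝓞 K)) :
    {w : HeightOneSpectrum (𝓞 F) | Over v w}.Finite := by
  have h1 : (v.asIdeal.primesOver (𝓞 F)).Finite := by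
    rw [← IsDedekindDomain.coe_primesOverFinset v.ne_bot (𝓞 F)]
    exact Finset.finite_toSet _
  refine Set.Finite.of_finite_image (f := fun w : HeightOneSpectrum (𝓞 F) => w.asIdeal)
    (h1.subset ?_) ?_
  · rintro _ ⟨w, hw, rfl⟩
    exact ⟨w.isPrime, ⟨hw.symm⟩⟩
  · intro w _ w' _ h
    exact HeightOneSpectrum.ext h

/-- the places of `F` over `v` -/
noncomputable def pls {K : Type} (F : Type) [Field K] [NumberField K] [Field F] [NumberField F]
    [Algebra K F] (v : HeightOneSpectrum (𝓞 K)) : Finset (HeightOneSpectrum (𝓞 F)) :=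
  (over_fin F v).toFinset

theorem mem_pls {K F : Type} [Field K] [NumberField K] [Field F] [NumberField F] [Algebra K F]
    {v : HeightOneSpectrum (𝓞 K)} {w : HeightOneSpectrum (𝓞 F)} : w ∈ pls F v ↔ Over v w :=
  (over_fin F v).mem_toFinset

/-- the sum of the odd local degrees at the places over `v` -/
noncomputable def oddW {K : Type} (F : Type) [Field K] [NumberField K] [Field F] [NumberField F]
    [Algebra K F] (v : HeightOneSpectrum (𝓞 K)) : ℕ :=
  ∑ w ∈ pls F v, if 2 ∣ locDeg K w then 0 else locDeg K w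

/-- the sum of the local degrees not divisible by `2 ^ m` at the places over `v` -/
noncomputable def badW (m : ℕ) {K : Type} (F : Type) [Field K] [NumberField K] [Field F]
    [NumberField F] [Algebra K F] (v : HeightOneSpectrum (𝓞 K)) : ℕ :=
  ∑ w ∈ pls F v, if 2 ^ m ∣ locDeg K w then 0 else locDeg K w

/-- the weight: `n 2^(m - ord_2 n)` if `2^m` does not divide `n` -/
def gw (m n : ℕ) : ℕ := if 2 ^ m ∣ n then 0 else n * 2 ^ (m - n.factorization 2)

/-- the potential -/
noncomputable def Phi (m : ℕ) {K : Type} (F : Type) [Field K] [NumberField K] [Field F]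
    [NumberField F] [Algebra K F] (v : HeightOneSpectrum (𝓞 K)) : ℕ :=
  ∑ w ∈ pls F v, gw m (locDeg K w)

/-- transitive set with open stabilizers -/
structure TSet (J : Type) [Group J] [TopologicalSpace J] (X : Type) [MulAction J X] (n : ℕ) :
    Prop where
  tr : ∀ x y : X, ∃ j : J, j • x = y
  op : ∀ x : X, IsOpen (MulAction.stabilizer J x : Set J)
  card : Nat.card X = n

/-- every `U` on which `ε` is not trivial has a point whose stabilizer in `U` is in the kernel of `ε` -/
def Bp {J : Type} [Group J] (D : CocD J) (X : Type) [MulAction J X] : Prop :=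
  ∀ U : Subgroup J, D.Triv U → ∃ y : X, ∀ u ∈ U, u • y = y → D.ε u = 1

/-- the place `w` of `K` is induced by `g • φ`, and its decomposition group acts through a
reflection -/
def Refl {K : Type} [Field K] [NumberField K] (φ : K →+* AlgebraicClosure ℚ)
    (D : CocD (stb φ)) (w : HeightOneSpectrum (𝓞 K)) : Prop :=
  ∃ (p : ℕ) (_ : Fact p.Prime) (g : GQ), IsPl p (g • φ) w ∧
    D.Triv ((cj g (decomp ℚ_[p] (emb p))).subgroupOf (stb φ))

/-- the extensions allowed in the relation -/
def OkF (K : Pool.Agent.H73.AL.NF) (W : Finset (HeightOneSpectrum (𝓞 K.F)))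
    (F : Pool.Agent.H73.AL.NF) : Prop :=
  ∃ _ : Algebra K.F F.F, Module.finrank K.F F.F ∣ 18 ∧ 2 ≤ Module.finrank K.F F.F ∧
    ∀ w ∈ W, 3 * oddW F.F w ≤ Module.finrank K.F F.F

/-- the marks of `F` are induced from the marks of `X` -/
def RX {K : Type} [Field K] (φ : K →+* AlgebraicClosure ℚ) (X : Type) [MulAction (stb φ) X]
    (F : Pool.Agent.H73.AL.NF) : Prop :=
  ∃ H : Subgroup (stb φ), IsOpen (H : Set (stb φ)) ∧ pc H = pch (stb φ) X ∧
    Pool.Agent.H73.AL.mark F.F = pc (H.map (stb φ).subtype)

end Pool.Agent.MD
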