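import Pool.Agent.MD.P.Defs

/-!
# MD/P-Sum: sums of local degrees

PLAN.  `sum_locDeg`: `Ideal.sum_ramification_inertia_eq_finrank` (used in `dg_cases`, LD/L/Deg.lean) is the sum over the type `v.asIdeal.primesOver (𝓞 F)`; the map `w ↦ w.asIdeal` is a bijection of `pls F v` with it
(`Over v w` means that `w.asIdeal` lies over `v.asIdeal`; the primes over `v.asIdeal ≠ ⊥` are nonzero: `Ideal.ne_bot_of_mem_primesOver`); `IsFractionRing.finrank_eq` or so for `finrank (𝓞 K) (𝓞 F) = finrank K F` as in `dg_cases`.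
`sum_tower`: `pls M v` is the disjoint union of the `pls M w`, `w ∈ pls F v`: `Finset.sum_biUnion` or `Finset.sum_fiberwise_of_maps_to` with the map `W ↦ W.comap` (the place of `F` below `W`: the ideal `W.asIdeal.comap (algebraMap ..)` is prime
and nonzero (it contains a nonzero element of `v`); `over_trans`, and `Over v W`, `Over w W` imply `Over v w`).
`oddW_tower`: by `sum_tower` and `locDeg_tower`: `2 ∣ locDeg K w * locDeg F W` if `2 ∣ locDeg K w`, so only the odd `w` contribute, and for these `∑ W, locDeg K w * (..) ≤ locDeg K w * ∑ W locDeg F W = locDeg K w * finrank F M`.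
`oddW_three`: the even place has local degree `≥ 2` (`locDeg_pos`), the sum of all is `3`, so the sum over the odd ones is `≤ 1`.
-/

namespace Pool.Agent.MD

open NumberField IsDedekindDomain Pool.Agent.HWR Pool.Agent.QD Pool.Agent.LD

theorem sum_locDeg {K : Type} (F : Type) [Field K] [NumberField K] [Field F] [NumberField F]
    [Algebra K F] (v : HeightOneSpectrum (𝓞 K)) :
    ∑ w ∈ pls F v, locDeg K w = Module.finrank K F := by
  classical
  have hp0 : v.asIdeal ≠ ⊥ := v.ne_bot
  have hmax : v.asIdeal.IsMaximal := v.isMaximal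
  have hfin : Finite (v.asIdeal.primesOver (𝓞 F)) := by
    rw [← IsDedekindDomain.coe_primesOverFinset hp0 (𝓞 F)]
    exact Finset.finite_toSet _
  let _ : Fintype (v.asIdeal.primesOver (𝓞 F)) := Fintype.ofFinite _
  have hrank : Module.finrank (𝓞 K) (𝓞 F) = Module.finrank K F :=
    (IsFractionRing.finrank_eq (𝓞 K) K (𝓞 F) F).symm
  have hsum := Ideal.sum_ramification_inertia_eq_finrank v.asIdeal (𝓞 F)
  rw [hrank] at hsum
  rw [← hsum]
  refine Finset.sum_bij
    (fun w hw => (⟨w.asIdeal, ⟨w.isPrime, ⟨(mem_pls.1 hw).symm⟩⟩⟩ : v.asIdeal.primesOver (𝓞 F)))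
    ?_ ?_ ?_ ?_
  · intro w hw
    exact Finset.mem_univ _
  · intro w hw w' hw' h
    exact HeightOneSpectrum.ext (congrArg Subtype.val h)
  · rintro ⟨P, hP⟩ _
    exact ⟨⟨P, hP.1, Ideal.ne_bot_of_mem_primesOver hp0 hP⟩, mem_pls.2 hP.2.over.symm, rfl⟩
  · intro w hw
    rfl

private theorem sum_below {K : Type} (F M : Type) [Field K] [NumberField K] [Field F]
    [NumberField F] [Field M] [NumberField M] [Algebra K F] [Algebra F M] [Algebra K M]
    [IsScalarTower K F M] (v : HeightOneSpectrum (𝓞 K)) (W : HeightOneSpectrum (𝓞 M))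
    (hW : Over v W) : ∃ w : HeightOneSpectrum (𝓞 F), Over v w ∧ Over w W := by
  have hcomap : (W.asIdeal.comap (algebraMap (𝓞 F) (𝓞 M))).comap (algebraMap (𝓞 K) (𝓞 F)) =
      v.asIdeal := by
    rw [Ideal.comap_comap, ← IsScalarTower.algebraMap_eq (𝓞 K) (𝓞 F) (𝓞 M)]
    exact hW
  have hWp : W.asIdeal.IsPrime := W.isPrime
  have hne : W.asIdeal.comap (algebraMap (𝓞 F) (𝓞 M)) ≠ ⊥ := by
    intro h0
    rw [h0] at hcomap
    apply v.ne_bot
    rw [← hcomap]
    exact Ideal.comap_bot_of_injective _ (FaithfulSMul.algebraMap_injective (𝓞 K) (𝓞 F))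
  exact ⟨⟨W.asIdeal.comap (algebraMap (𝓞 F) (𝓞 M)), Ideal.IsPrime.comap _, hne⟩, hcomap, rfl⟩

theorem sum_tower {K : Type} (F M : Type) [Field K] [NumberField K] [Field F] [NumberField F]
    [Field M] [NumberField M] [Algebra K F] [Algebra F M] [Algebra K M] [IsScalarTower K F M]
    (v : HeightOneSpectrum (𝓞 K)) (h : HeightOneSpectrum (𝓞 M) → ℕ) :
    ∑ W ∈ pls M v, h W = ∑ w ∈ pls F v, ∑ W ∈ pls M w, h W := by
  classical
  have h1 : pls M v = (pls F v).biUnion (fun w => pls M w) := by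
    ext W
    rw [Finset.mem_biUnion, mem_pls]
    constructor
    · intro hW
      obtain ⟨w, h2, h3⟩ := sum_below F M v W hW
      exact ⟨w, mem_pls.2 h2, mem_pls.2 h3⟩
    · rintro ⟨w, h2, h3⟩
      exact over_trans (mem_pls.1 h2) (mem_pls.1 h3)
  rw [h1]
  apply Finset.sum_biUnion
  intro w _ w' _ hne
  change Disjoint (pls M w) (pls M w')
  rw [Finset.disjoint_left]
  intro W h2 h3
  apply hne
  apply HeightOneSpectrum.ext
  have h4 : W.asIdeal.comap (algebraMap (𝓞 F) (𝓞 M)) = w.asIdeal := mem_pls.1 h2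
  have h5 : W.asIdeal.comap (algebraMap (𝓞 F) (𝓞 M)) = w'.asIdeal := mem_pls.1 h3
  rw [← h4, ← h5]

theorem oddW_tower {K : Type} (F M : Type) [Field K] [NumberField K] [Field F] [NumberField F]
    [Field M] [NumberField M] [Algebra K F] [Algebra F M] [Algebra K M] [IsScalarTower K F M]
    (v : HeightOneSpectrum (𝓞 K)) : oddW M v ≤ Module.finrank F M * oddW F v := by
  unfold oddW
  rw [sum_tower F M v, Finset.mul_sum]
  refine Finset.sum_le_sum (fun w _ => ?_)
  by_cases h2 : 2 ∣ locDeg K w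
  · rw [if_pos h2, mul_zero, Nat.le_zero]
    refine Finset.sum_eq_zero (fun W hW => ?_)
    rw [if_pos]
    rw [locDeg_tower K F M w W (mem_pls.1 hW)]
    exact Dvd.dvd.mul_right h2 _
  · rw [if_neg h2, ← sum_locDeg M w, Finset.sum_mul]
    refine Finset.sum_le_sum (fun W hW => ?_)
    split_ifs with h3
    · exact Nat.zero_le _
    · rw [locDeg_tower K F M w W (mem_pls.1 hW), mul_comm]

theorem oddW_three {K : Type} (F : Type) [Field K] [NumberField K] [Field F] [NumberField F]
    [Algebra K F] (v : HeightOneSpectrum (𝓞 K)) (h3 : Module.finrank K F = 3)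
    (h : ∃ w : HeightOneSpectrum (𝓞 F), Over v w ∧ 2 ∣ locDeg K w) : oddW F v ≤ 1 := by
  classical
  obtain ⟨w, hw, h2⟩ := h
  have h4 := sum_locDeg F v
  rw [h3, ← Finset.add_sum_erase _ _ (mem_pls.2 hw)] at h4
  have h5 : oddW F v ≤ ∑ x ∈ (pls F v).erase w, locDeg K x := by
    unfold oddW
    rw [← Finset.add_sum_erase _ _ (mem_pls.2 hw), if_pos h2, zero_add]
    refine Finset.sum_le_sum (fun x _ => ?_)
    split_ifs
    · exact Nat.zero_le _
    · exact le_rfl
  have h6 := locDeg_pos K w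
  obtain ⟨c, hc⟩ := h2
  omega

theorem oddW_zero {K : Type} (F : Type) [Field K] [NumberField K] [Field F] [NumberField F]
    [Algebra K F] (v : HeightOneSpectrum (𝓞 K))
    (h : ∀ w : HeightOneSpectrum (𝓞 F), Over v w → 2 ∣ locDeg K w) : oddW F v = 0 := by
  unfold oddW
  refine Finset.sum_eq_zero (fun w hw => ?_)
  rw [if_pos (h w (mem_pls.1 hw))]

end Pool.Agent.MD
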