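import Pool.Agent.MD.P.TSet
import Pool.Agent.LD.L.Coc
import Pool.Agent.LD.L.Eps
import Pool.Agent.LD.L.ExEmb
import Pool.Agent.LD.L.Apx
import Pool.Agent.H73.AL.Extract

/-!
# MD/P-Coc: the cocycles for a finite set of places

PLAN.  As the first half of the proof of `rel_even` (LD/L/RelK.lean), for several places at once.  Fix `φ : K.F →+* AlgebraicClosure ℚ` (given).  For `w ∈ W` choose a prime `p w` with `(p w : 𝓞 K) ∈ w` (`rk_exists_p`, private in RelK.lean: copy) and an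
embedding `φ_w` with `IsPl (p w) φ_w w` (`exists_emb`), `g w : GQ` with `g w • φ = φ_w` (`trans_emb`, H73/AL/Extract.lean).  `T' = T ∪ {p w | w ∈ W}` (`Finset.image`/`biUnion` over `W.attach`), `exists_eps`: `s`, `ε`; `(nice_rat T').sub (stab_open ..)`;
`exists_coc`: `D` with `D.ε = ε` and `Cyc U ∨ D.Triv U` for `U ∈ res (stb φ) (famT T')`.  (a) For `U ∈ res (stb φ) (famT T)`: `famT T ⊆ famT T'` (`rk_famT_mono`, copy).  (b) For `w ∈ W`: `U_w = (cj (g w) (decomp ..)).subgroupOf (stb φ)`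
is in the family: `U_w.map subtype = cj g decomp ⊓ stb φ` and `cj g⁻¹` of it is `≤ decomp` (`cj_cj`, `cj_one`); some `u ∈ U_w` has `ε u ≠ 1`: otherwise `lsq_of_fix (p w) φ_w` with `s' = g s` (`s'² = φ_w x`) gives
`LSq w x`: let `h ∈ decomp ∩ stb φ_w`, then `g⁻¹ h g ∈ cj g decomp ∩ stb φ`, so it fixes `s`, i.e. `h (g s) = g s`.  `triv_of'` gives `D.Triv U_w`.
The hypothesis `∃ g, ε g ≠ 1` of `exists_coc` follows from (b) for one `w ∈ W` (so prove the existence of `u ∈ U_w` with `ε u ≠ 1` first, it does not use `D`).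
-/

namespace Pool.Agent.MD

open NumberField IsDedekindDomain Pool.Agent.HWR Pool.Agent.QD Pool.Agent.H73.DU
  Pool.Agent.H73.AL Pool.Agent.LD

private theorem co_prime_mem {K : Type} [Field K] [NumberField K]
    (v : HeightOneSpectrum (𝓞 K)) (n : ℕ) :
    n ≠ 0 → ((n : ℕ) : 𝓞 K) ∈ v.asIdeal →
      ∃ p : ℕ, p.Prime ∧ ((p : ℕ) : 𝓞 K) ∈ v.asIdeal := by
  induction n using induction_on_primes with
  | zero => exact fun h => absurd rfl h
  | one =>
    intro _ h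
    exfalso
    rw [Nat.cast_one] at h
    exact v.isPrime.ne_top ((Ideal.eq_top_iff_one _).2 h)
  | prime_mul p a hp ih =>
    intro h1 h2
    rw [Nat.cast_mul] at h2
    rcases v.isPrime.mem_or_mem h2 with h3 | h3
    · exact ⟨p, hp, h3⟩
    · exact ih (fun h => h1 (by rw [h, mul_zero])) h3

private theorem co_exists_p {K : Type} [Field K] [NumberField K]
    (v : HeightOneSpectrum (𝓞 K)) : ∃ p : ℕ, p.Prime ∧ ((p : ℕ) : 𝓞 K) ∈ v.asIdeal :=
  co_prime_mem v (Ideal.absNorm v.asIdeal)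
    (fun h => v.ne_bot (Ideal.absNorm_eq_zero_iff.1 h)) (Ideal.absNorm_mem _)

private theorem co_famT_mono {T T' : Finset ℕ} (h : T ⊆ T') : famT T ⊆ famT T' := by
  rintro U (hU | ⟨l, hl, a, hlT, hU⟩)
  · exact Or.inl hU
  · exact Or.inr ⟨l, hl, a, h hlT, hU⟩

private theorem co_exists_g (K : NF) (φ : K.F →+* AlgebraicClosure ℚ)
    (w : HeightOneSpectrum (𝓞 K.F)) : ∃ (p : ℕ) (_ : Fact p.Prime) (g : GQ),
      IsPl p (g • φ) w := by
  obtain ⟨p, hp, hpw⟩ := co_exists_p w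
  have : Fact p.Prime := ⟨hp⟩
  obtain ⟨ψ, hψ⟩ := exists_emb p K.F w hpw
  obtain ⟨g, hg⟩ := trans_emb K.F φ ψ
  exact ⟨p, ⟨hp⟩, g, by rw [hg]; exact hψ⟩

private theorem co_exists_u (p : ℕ) [Fact p.Prime] {K : Type} [Field K] [NumberField K]
    (φ : K →+* AlgebraicClosure ℚ) (w : HeightOneSpectrum (𝓞 K)) (g : GQ)
    (hg : IsPl p (g • φ) w) (x : Kˣ) (hx : ¬ LSq w x) (s : AlgebraicClosure ℚ)
    (hs : s ^ 2 = φ (x : K)) (ε : stb φ →* (ZMod 3)ˣ)
    (hε : ∀ g : stb φ, ε g = 1 ↔ (g : GQ) s = s) :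
    ∃ u ∈ (cj g (decomp ℚ_[p] (emb p))).subgroupOf (stb φ), ε u ≠ 1 := by
  by_contra hcon
  push Not at hcon
  apply hx
  apply lsq_of_fix p (g • φ) hg x (g s)
  · rw [← map_pow, hs]
    rfl
  · intro h hd hst
    have hst' : h • (g • φ) = g • φ := hst
    have h3 : g⁻¹ * h * g ∈ stb φ := by
      change (g⁻¹ * h * g) • φ = φ
      rw [mul_smul, mul_smul, hst', inv_smul_smul]
    have h4 := (hε ⟨_, h3⟩).1 (hcon ⟨_, h3⟩ (Subgroup.mem_subgroupOf.2 (mem_cj hd)))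
    have h5 : (g * (g⁻¹ * h * g)) s = (h * g) s := by
      rw [← mul_assoc, ← mul_assoc, mul_inv_cancel, one_mul]
    have h6 : g ((g⁻¹ * h * g) s) = h (g s) := h5
    rw [← h6]
    exact congrArg g h4

theorem exists_refl (T : Finset ℕ) (K : NF) (φ : K.F →+* AlgebraicClosure ℚ)
    (W : Finset (HeightOneSpectrum (𝓞 K.F))) (x : (K.F)ˣ) (hx : ∀ w ∈ W, ¬ LSq w x)
    (hne : W.Nonempty) :
    ∃ (s : AlgebraicClosure ℚ) (D : CocD (stb φ)), s ^ 2 = φ (x : K.F) ∧ D.Good ∧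
      (∀ g : stb φ, D.ε g = 1 ↔ (g : GQ) s = s) ∧
      (∀ U ∈ res (stb φ) (famT T), Cyc U ∨ D.Triv U) ∧ ∀ w ∈ W, Refl φ D w := by
  classical
  choose p hp g hg using co_exists_g K φ
  set T' : Finset ℕ := T ∪ W.image p with hT'
  obtain ⟨s, ε, hs, hεo, hε⟩ := exists_eps K.F φ x
  have hu : ∀ w ∈ W, ∃ u ∈ (cj (g w) (@decomp ℚ_[p w] _ _ _ _ (emb (p w)))).subgroupOf (stb φ),
      ε u ≠ 1 := fun w hw =>
    co_exists_u (p w) φ w (g w) (hg w) x (hx w hw) s hs ε hε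
  have hJo : IsOpen (stb φ : Set GQ) := stab_open K.F φ
  have hG := nice_rat T'
  have hGJ := hG.sub hJo
  obtain ⟨D, hDε, hD, hDU⟩ := exists_coc hGJ ε hεo (by
    obtain ⟨w, hw⟩ := hne
    obtain ⟨u, -, hu⟩ := hu w hw
    exact ⟨u, hu⟩)
  refine ⟨s, D, hs, hD, ?_, ?_, ?_⟩
  · rw [hDε]
    exact hε
  · intro U hU
    exact hDU U (co_famT_mono Finset.subset_union_left hU)
  · intro w hw
    refine ⟨p w, hp w, g w, hg w, ?_⟩
    have hmem : (cj (g w) (decomp ℚ_[p w] (emb (p w)))).subgroupOf (stb φ) ∈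
        res (stb φ) (famT T') := by
      change ((cj (g w) (decomp ℚ_[p w] (emb (p w)))).subgroupOf (stb φ)).map (stb φ).subtype ∈
        famT T'
      rw [Subgroup.subgroupOf_map_subtype]
      refine Or.inr ⟨p w, hp w, (g w)⁻¹, ?_, ?_⟩
      · exact Finset.mem_union_right _ (Finset.mem_image_of_mem p hw)
      · intro h hh
        obtain ⟨u, ⟨hu1, -⟩, rfl⟩ := mem_cj_iff.1 hh
        obtain ⟨d, hd, rfl⟩ := mem_cj_iff.1 hu1
        have : (g w)⁻¹⁻¹ * ((g w)⁻¹ * d * g w) * (g w)⁻¹ = d := by group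
        rw [this]
        exact hd
    apply triv_of' D _ (hDU _ hmem)
    obtain ⟨u, hu1, hu2⟩ := hu w hw
    exact ⟨u, hu1, by rw [hDε]; exact hu2⟩

end Pool.Agent.MD
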