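import Pool.Agent.MD.P.Sum

/-!
# MD/P-Pot: the potential

The weight `gw`, its behaviour under products, and the potential in towers.
-/

namespace Pool.Agent.MD

open NumberField IsDedekindDomain Pool.Agent.HWR Pool.Agent.QD Pool.Agent.LD

theorem gw_odd (m : ℕ) {a b : ℕ} (ha : 0 < a) (hb : ¬ 2 ∣ b) : gw m (a * b) = gw m a * b := by
  have hb0 : b ≠ 0 := fun h => hb (by rw [h]; exact dvd_zero 2)
  have hcop : (2 ^ m).Coprime b := by
    refine Nat.Coprime.pow_left m ?_
    rwa [Nat.Prime.coprime_iff_not_dvd Nat.prime_two]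
  have h1 : 2 ^ m ∣ a * b ↔ 2 ^ m ∣ a :=
    ⟨fun h => hcop.dvd_of_dvd_mul_right h, fun h => Dvd.dvd.mul_right h b⟩
  unfold gw
  by_cases h : 2 ^ m ∣ a
  · rw [if_pos h, if_pos (h1.2 h), zero_mul]
  · rw [if_neg h, if_neg (fun h' => h (h1.1 h')), Nat.factorization_mul ha.ne' hb0,
      Finsupp.add_apply, Nat.factorization_eq_zero_of_not_dvd hb, add_zero]
    ring

theorem gw_even (m : ℕ) {a b : ℕ} (ha : 0 < a) (hb0 : 0 < b) (hb : 2 ∣ b) :
    2 * gw m (a * b) ≤ gw m a * b := by
  unfold gw
  by_cases h : 2 ^ m ∣ a * b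
  · rw [if_pos h, mul_zero]
    exact Nat.zero_le _
  · have ha2 : ¬ 2 ^ m ∣ a := fun h' => h (Dvd.dvd.mul_right h' b)
    rw [if_neg h, if_neg ha2]
    have h2 : (a * b).factorization 2 = a.factorization 2 + b.factorization 2 := by
      rw [Nat.factorization_mul ha.ne' hb0.ne', Finsupp.add_apply]
    have h3 : 1 ≤ b.factorization 2 :=
      (Nat.Prime.dvd_iff_one_le_factorization Nat.prime_two hb0.ne').1 hb
    have h4 : (a * b).factorization 2 < m := by
      by_contra h5
      push Not at h5
      exact h ((Nat.Prime.pow_dvd_iff_le_factorization Nat.prime_two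
        (Nat.mul_pos ha hb0).ne').2 h5)
    have h5 : 2 * 2 ^ (m - (a * b).factorization 2) ≤ 2 ^ (m - a.factorization 2) := by
      rw [← pow_succ']
      exact Nat.pow_le_pow_right (by norm_num) (by omega)
    calc 2 * (a * b * 2 ^ (m - (a * b).factorization 2))
        = a * b * (2 * 2 ^ (m - (a * b).factorization 2)) := by ring
      _ ≤ a * b * 2 ^ (m - a.factorization 2) := Nat.mul_le_mul_left _ h5
      _ = a * 2 ^ (m - a.factorization 2) * b := by ring

theorem gw_le (m n : ℕ) : gw m n ≤ 2 ^ m * n := by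
  unfold gw
  split_ifs with h
  · exact Nat.zero_le _
  · rw [mul_comm]
    exact Nat.mul_le_mul_right _ (Nat.pow_le_pow_right (by norm_num) (Nat.sub_le _ _))

theorem le_gw (m n : ℕ) : (if 2 ^ m ∣ n then 0 else n) ≤ gw m n := by
  unfold gw
  split_ifs with h
  · exact le_rfl
  · exact Nat.le_mul_of_pos_right _ (Nat.pow_pos (by norm_num))

theorem Phi_step (m : ℕ) {K : Type} (F M : Type) [Field K] [NumberField K] [Field F]
    [NumberField F] [Field M] [NumberField M] [Algebra K F] [Algebra F M] [Algebra K M]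
    [IsScalarTower K F M] (v : HeightOneSpectrum (𝓞 K))
    (h : ∀ w ∈ pls F v, 3 * oddW M w ≤ Module.finrank F M) :
    3 * Phi m M v ≤ 2 * Module.finrank F M * Phi m F v := by
  have h1 : ∀ w ∈ pls F v, 3 * (∑ W ∈ pls M w, gw m (locDeg K W)) ≤
      2 * Module.finrank F M * gw m (locDeg K w) := by
    intro w hw
    have h2 : 2 * (∑ W ∈ pls M w, gw m (locDeg K W)) ≤
        gw m (locDeg K w) * (Module.finrank F M + oddW M w) := by
      rw [← sum_locDeg M w]
      unfold oddW
      rw [← Finset.sum_add_distrib, Finset.mul_sum, Finset.mul_sum]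
      refine Finset.sum_le_sum fun W hW => ?_
      rw [locDeg_tower K F M w W (mem_pls.1 hW)]
      by_cases h3 : 2 ∣ locDeg F W
      · rw [if_pos h3, add_zero]
        exact gw_even m (locDeg_pos K w) (locDeg_pos F W) h3
      · rw [if_neg h3, gw_odd m (locDeg_pos K w) h3]
        apply le_of_eq
        ring
    have h3 := h w hw
    have h4 : gw m (locDeg K w) * (3 * (Module.finrank F M + oddW M w)) ≤
        gw m (locDeg K w) * (4 * Module.finrank F M) := Nat.mul_le_mul_left _ (by omega)
    nlinarith [h2, h4]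
  unfold Phi
  rw [sum_tower F M v, Finset.mul_sum, Finset.mul_sum]
  exact Finset.sum_le_sum h1

theorem Phi_le (m : ℕ) {K : Type} (F : Type) [Field K] [NumberField K] [Field F] [NumberField F]
    [Algebra K F] (v : HeightOneSpectrum (𝓞 K)) : Phi m F v ≤ 2 ^ m * Module.finrank K F := by
  unfold Phi
  rw [← sum_locDeg F v, Finset.mul_sum]
  exact Finset.sum_le_sum fun w _ => gw_le m _

theorem bad_le (m : ℕ) {K : Type} (F : Type) [Field K] [NumberField K] [Field F] [NumberField F]
    [Algebra K F] (v : HeightOneSpectrum (𝓞 K)) : badW m F v ≤ Phi m F v := by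
  unfold badW Phi
  exact Finset.sum_le_sum fun w _ => le_gw m _

end Pool.Agent.MD
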