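import Pool.Agent.MD.P.Rel
import Pool.Agent.MD.P.Pot
import Pool.Agent.MD.F.Cho
import Pool.Agent.MD.E.Fin
import Pool.Agent.QD.F.Main

/-!
# MD/P-Ind: the induction

PLAN.  Compare `ld_main` (LD/L/Ind.lean).  `ans_core`: by induction on `d`: for all `j` with `j + d = M` and all `F / K` with `2^j ≤ [F : K]`, `[F : K] ∣ 18^j` and `3^j Φ_v(F) ≤ 2^j 2^m [F : K]` for `v ∈ V`: `D.HW a F`.
`d = 0`: `h F` with `bad_le`.  `d + 1`: let `W = V.biUnion (pls F)` (classical decidable equality), nonempty (`exists_over'`), away from `T` (`ind_away`, copy).  An extension `F' / F` with `[F' : F] ∣ 18`, `2 ≤ [F' : F]` and `3 oddW F' w ≤ [F' : F]` for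
`w ∈ W` satisfies the induction hypothesis at `j + 1` (`Phi_step`, `Module.finrank_mul_finrank`; algebra structure of `F'` over `K`: composition), so `hext : D.HW a F'`.  (1) `HWV D a W`: the quadratic extensions `F(√x)`, `x` no square at all `w ∈ W`:
`nonsplit_two`, `oddW_zero`.  (2) `choose1` (MD/F/Cho, with `b = 1`): `x` with `¬ LSq w x` for all `w ∈ W`; `rel_ok`, `MER_of_rel` (as in `ld_main`): `D.MER a F`.  `hw_of_mer` (MD/E/Fin) with `K := F`, `V := W`.
Start: `j = 0`, `d = M`, `F = K`, `Phi_le`.  `ans_main`: if `V` is empty, apply `ans_core` to `V = {v0}` with any `v0` away from `T` (`choose` a prime outside `T` and a place over it: the places not away from `T` are finitely many, `not_away_finite`, QD/In/Ex,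
and there are infinitely many places; or see `exists_v0`, QD/In/Ex).
-/

namespace Pool.Agent.MD

open NumberField IsDedekindDomain Pool.Agent.HWR Pool.Agent.QD Pool.Agent.H73.DU
  Pool.Agent.H73.AL Pool.Agent.LD

private theorem pi_away {K F : Type} [Field K] [NumberField K] [Field F] [NumberField F]
    [Algebra K F] {T : Finset ℕ} {v : HeightOneSpectrum (𝓞 K)} {w : HeightOneSpectrum (𝓞 F)}
    (h : Over v w) (hv : Away K T v) : Away F T w := by
  intro p hp hmem
  refine hv p hp ?_
  rw [← h, Ideal.mem_comap, map_natCast]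
  exact hmem

private theorem pi_nonsq (K : Type) [Field K] [NumberField K] : ∃ x : Kˣ, ¬ IsSquare x := by
  obtain ⟨P, hP1, hP2⟩ := Ring.not_isField_iff_exists_prime.1 (RingOfIntegers.not_isField K)
  set v : HeightOneSpectrum (𝓞 K) := ⟨P, hP2, hP1⟩ with hv
  obtain ⟨π, hπ⟩ := v.valuation_exists_uniformizer K
  have hπ0 : π ≠ 0 := by
    rintro rfl
    rw [map_zero] at hπ
    exact WithZero.exp_ne_zero hπ.symm
  refine ⟨Units.mk0 π hπ0, ?_⟩
  rintro ⟨y, hy⟩
  have h1 : ordK v (Units.mk0 π hπ0) = 1 := by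
    rw [ordK_eq_iff]
    simpa using hπ
  rw [hy, ordK_mul] at h1
  omega

private theorem pi_exists_away (K : Type) [Field K] [NumberField K] (T : Finset ℕ)
    (hTp : ∀ p ∈ T, p.Prime) : ∃ v : HeightOneSpectrum (𝓞 K), Away K T v := by
  have hfin := In.not_away_finite K T hTp
  obtain ⟨x, hx⟩ := pi_nonsq K
  obtain ⟨v, h1, -⟩ := exists_inert hfin.toFinset x hx
  refine ⟨v, ?_⟩
  by_contra hv
  exact h1 (hfin.mem_toFinset.2 hv)

theorem ans_core (T : Finset ℕ) (hTp : ∀ p ∈ T, p.Prime)
    (hT : ∀ p : ℕ, p.Prime → p < 101 → p ∈ T) (D : LocData T) (a : ℕ → ℝ)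
    (ha : ∀ q : ℕ, |a q| ≤ 2 * Real.sqrt q) (hfr : FrobRel T a)
    (K : Type) [Field K] [NumberField K] (V : Finset (HeightOneSpectrum (𝓞 K)))
    (hV : ∀ v ∈ V, Away K T v) (hne : V.Nonempty) (m M : ℕ)
    (h : ∀ (F : Type) [Field F] [NumberField F] [Algebra K F],
      2 ^ M ≤ Module.finrank K F → Module.finrank K F ∣ 18 ^ M →
      (∀ v ∈ V, 3 ^ M * badW m F v ≤ 2 ^ (M + m) * Module.finrank K F) → D.HW a F) :
    D.HW a K := by
  classical
  have key : ∀ d j : ℕ, j + d = M → ∀ (F : Type) [Field F] [NumberField F] [Algebra K F],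
      2 ^ j ≤ Module.finrank K F → Module.finrank K F ∣ 18 ^ j →
      (∀ v ∈ V, 3 ^ j * Phi m F v ≤ 2 ^ (j + m) * Module.finrank K F) → D.HW a F := by
    intro d
    induction d with
    | zero =>
      intro j hj F _ _ _ h1 h2 h3
      have hjM : j = M := by omega
      subst hjM
      exact h F h1 h2 fun v hv => (Nat.mul_le_mul_left _ (bad_le m F v)).trans (h3 v hv)
    | succ d ih =>
      intro j hj F _ _ _ h1 h2 h3
      let W : Finset (HeightOneSpectrum (𝓞 F)) := V.biUnion fun v => pls F v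
      have hW : ∀ w ∈ W, Away F T w := by
        intro w hw
        obtain ⟨v, hv, hvw⟩ := Finset.mem_biUnion.1 hw
        exact pi_away (mem_pls.1 hvw) (hV v hv)
      have hWne : W.Nonempty := by
        obtain ⟨v, hv⟩ := hne
        obtain ⟨w, hw⟩ := exists_over' F v
        exact ⟨w, Finset.mem_biUnion.2 ⟨v, hv, mem_pls.2 hw⟩⟩
      have hext : ∀ (F' : Type) [Field F'] [NumberField F'] [Algebra F F'],
          Module.finrank F F' ∣ 18 → 2 ≤ Module.finrank F F' →
          (∀ w ∈ W, 3 * oddW F' w ≤ Module.finrank F F') → D.HW a F' := by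
        intro F' _ _ _ k1 k2 k3
        let _ : Algebra K F' := ((algebraMap F F').comp (algebraMap K F)).toAlgebra
        have _ : IsScalarTower K F F' := IsScalarTower.of_algebraMap_eq' rfl
        have hmul : Module.finrank K F * Module.finrank F F' = Module.finrank K F' :=
          Module.finrank_mul_finrank K F F'
        refine ih (j + 1) (by omega) F' ?_ ?_ ?_
        · rw [← hmul, pow_succ]
          exact Nat.mul_le_mul h1 k2
        · rw [← hmul, pow_succ]
          exact mul_dvd_mul h2 k1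
        · intro v hv
          have hs := Phi_step m F F' v fun w hw =>
            k3 w (Finset.mem_biUnion.2 ⟨v, hv, hw⟩)
          calc 3 ^ (j + 1) * Phi m F' v = 3 ^ j * (3 * Phi m F' v) := by ring
            _ ≤ 3 ^ j * (2 * Module.finrank F F' * Phi m F v) := Nat.mul_le_mul_left _ hs
            _ = 2 * Module.finrank F F' * (3 ^ j * Phi m F v) := by ring
            _ ≤ 2 * Module.finrank F F' * (2 ^ (j + m) * Module.finrank K F) :=
                Nat.mul_le_mul_left _ (h3 v hv)
            _ = 2 ^ (j + 1 + m) * Module.finrank K F' := by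
                rw [← hmul]
                ring
      have hq : HWV D a W := by
        intro x hx L _ _ _ θ hL hθ
        refine hext L ?_ (by rw [hL]) fun w hw => ?_
        · rw [hL]
          norm_num
        · rw [oddW_zero L w fun w' hw' => by rw [nonsplit_two L hL x θ hθ w (hx w hw) w' hw']]
          omega
      obtain ⟨x, -, hx⟩ := choose1 hTp (hT 2 Nat.prime_two (by norm_num)) W hW (1 : Fˣ)
      obtain ⟨A, B, hAB, hrel⟩ := rel_ok T ⟨F⟩ W x (fun w hw => (hx w hw).1) hWne
      have hEv : ∀ F' ∈ A ++ B, D.HW a F'.F := by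
        intro F' hF'
        obtain ⟨inst, g1, g2, g3⟩ := hAB F' hF'
        exact @hext F'.F _ _ inst g1 g2 g3
      have hM : D.MER a F := MER_of_rel D hTp hT ha ⟨F⟩ hrel
        (fun F' hF' => hEv F' (List.mem_append.2 (Or.inl hF')))
        (fun F' hF' => hEv F' (List.mem_append.2 (Or.inr hF')))
      exact hw_of_mer F T hTp hT D a ha (sqRel_of_frob F T a hfr) W hW hWne hq hM
  refine key M 0 (by omega) K ?_ ?_ ?_
  · rw [Module.finrank_self, pow_zero]
  · rw [Module.finrank_self, pow_zero]
  · intro v hv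
    rw [pow_zero, one_mul, Nat.zero_add]
    exact Phi_le m K v

theorem ans_main (T : Finset ℕ) (hTp : ∀ p ∈ T, p.Prime)
    (hT : ∀ p : ℕ, p.Prime → p < 101 → p ∈ T) (D : LocData T) (a : ℕ → ℝ)
    (ha : ∀ q : ℕ, |a q| ≤ 2 * Real.sqrt q) (hfr : FrobRel T a)
    (K : Type) [Field K] [NumberField K] (V : Finset (HeightOneSpectrum (𝓞 K)))
    (hV : ∀ v ∈ V, Away K T v) (m M : ℕ)
    (h : ∀ (F : Type) [Field F] [NumberField F] [Algebra K F],
      2 ^ M ≤ Module.finrank K F → Module.finrank K F ∣ 18 ^ M →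
      (∀ v ∈ V, 3 ^ M * badW m F v ≤ 2 ^ (M + m) * Module.finrank K F) → D.HW a F) :
    D.HW a K := by
  rcases V.eq_empty_or_nonempty with hV0 | hne
  · obtain ⟨v0, hv0⟩ := pi_exists_away K T hTp
    refine ans_core T hTp hT D a ha hfr K {v0} ?_ (Finset.singleton_nonempty v0) m M ?_
    · intro v hv
      rw [Finset.mem_singleton] at hv
      rw [hv]
      exact hv0
    · intro F _ _ _ h1 h2 _
      refine h F h1 h2 ?_
      intro v hv
      rw [hV0] at hv
      exact absurd hv (Finset.notMem_empty v)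
  · exact ans_core T hTp hT D a ha hfr K V hV hne m M h

end Pool.Agent.MD
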