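import Pool.Agent.MD.P.Coc
import Pool.Agent.LD.L.Fld

/-!
# MD/P-Pt: even places, square roots in fixed fields

PLAN.  `even_pt`: `Refl φ D w` gives `p`, `g`, `IsPl p (g • φ) w` and `D.Triv U` for `U = (cj g (decomp ..)).subgroupOf (stb φ)`; `hB` gives `y`; `hX.tr`: `j • x0 = y`, `j ∈ stb φ`.  `ψ' = (g * j) • ψ`; `ψ'.comp (algebraMap K F) = g • j • φ = g • φ`
(the action is composition: see `MulAction GQ (F →+* ..)` in H73/AL/Defs.lean).  `exists_isPl p ψ'`: `w'`; `isPl_over`: `Over w w'`.  `LSq w' x`: `lsq_of_fix p ψ'` with `s' = g s`, `s'² = g (φ x) = ψ' (algebraMap x)`; let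
`h ∈ decomp`, `h ∈ stb ψ'`: `u = g⁻¹ h g` satisfies `u • (j • ψ) = j • ψ`, so `u ∈ stb φ` and `j⁻¹ u j ∈ stb ψ = (stabilizer x0).map`, so `u • y = y` (in `stb φ`), `u ∈ cj g decomp` (`mem_cj`), so `D.ε u = 1`, `u s = s`, `h (g s) = g s`.
`two_dvd_of_lsq` (LD/L/Deg).
-/

namespace Pool.Agent.MD

open NumberField IsDedekindDomain Pool.Agent.HWR Pool.Agent.QD Pool.Agent.H73.DU
  Pool.Agent.H73.AL Pool.Agent.LD

theorem even_pt (K : NF) (φ : K.F →+* AlgebraicClosure ℚ) (x : (K.F)ˣ)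
    (s : AlgebraicClosure ℚ) (hs : s ^ 2 = φ (x : K.F)) (D : CocD (stb φ))
    (hε : ∀ g : stb φ, D.ε g = 1 ↔ (g : GQ) s = s) (w : HeightOneSpectrum (𝓞 K.F))
    (hx : ¬ LSq w x) (hw : Refl φ D w) (X : Type) [MulAction (stb φ) X] {n : ℕ}
    (hX : TSet (stb φ) X n) (hB : Bp D X) (F : NF) [Algebra K.F F.F]
    (ψ : F.F →+* AlgebraicClosure ℚ) (hψ : ψ.comp (algebraMap K.F F.F) = φ) (x0 : X)
    (hst : stb ψ = (MulAction.stabilizer (stb φ) x0).map (stb φ).subtype) :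
    ∃ w' : HeightOneSpectrum (𝓞 F.F), Over w w' ∧ 2 ∣ locDeg K.F w' := by
  obtain ⟨p, hp, g, hpl, hT⟩ := hw
  obtain ⟨y, hy⟩ := hB _ hT
  obtain ⟨j, hj⟩ := hX.tr x0 y
  have hcomp : ((g * (j : GQ)) • ψ).comp (algebraMap K.F F.F) = g • φ := by
    ext a
    change g ((j : GQ) (ψ (algebraMap K.F F.F a))) = g (φ a)
    have h1 : ψ (algebraMap K.F F.F a) = φ a := RingHom.congr_fun hψ a
    have h2 : (j : GQ) • φ = φ := MulAction.mem_stabilizer_iff.1 j.2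
    have h3 : (j : GQ) (φ a) = φ a := RingHom.congr_fun h2 a
    rw [h1, h3]
  obtain ⟨w', hw'⟩ := exists_isPl p ((g * (j : GQ)) • ψ)
  have hover : Over w w' := isPl_over hcomp hpl hw'
  refine ⟨w', hover, two_dvd_of_lsq F.F x w hx w' hover ?_⟩
  apply lsq_of_fix p ((g * (j : GQ)) • ψ) hw' _ (g s)
  · have h1 : ((g * (j : GQ)) • ψ) (algebraMap K.F F.F (x : K.F)) = g (φ (x : K.F)) :=
      RingHom.congr_fun hcomp (x : K.F)
    rw [← map_pow, hs]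
    exact h1.symm
  · intro h hd hst'
    have h1 : h • ((g * (j : GQ)) • ψ) = (g * (j : GQ)) • ψ := MulAction.mem_stabilizer_iff.1 hst'
    have h2 : ((j : GQ)⁻¹ * (g⁻¹ * h * g) * (j : GQ)) • ψ = ψ := by
      have e1 : (j : GQ)⁻¹ * (g⁻¹ * h * g) * (j : GQ) = (g * (j : GQ))⁻¹ * (h * (g * (j : GQ))) := by
        group
      rw [e1, mul_smul, mul_smul, h1, inv_smul_smul]
    have h3 : (j : GQ)⁻¹ * (g⁻¹ * h * g) * (j : GQ) ∈ stb ψ := MulAction.mem_stabilizer_iff.2 h2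
    rw [hst] at h3
    obtain ⟨k, hk, hk'⟩ := Subgroup.mem_map.1 h3
    have hk2 : (k : GQ) = (j : GQ)⁻¹ * (g⁻¹ * h * g) * (j : GQ) := hk'
    have hu' : ((j * k * j⁻¹ : stb φ) : GQ) = g⁻¹ * h * g := by
      rw [Subgroup.coe_mul, Subgroup.coe_mul, Subgroup.coe_inv, hk2]
      group
    have h5 : (j * k * j⁻¹) • y = y := by
      rw [← hj, mul_smul, inv_smul_smul, mul_smul, MulAction.mem_stabilizer_iff.1 hk]
    have h6 : (j * k * j⁻¹) ∈ (cj g (decomp ℚ_[p] (emb p))).subgroupOf (stb φ) := by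
      rw [Subgroup.mem_subgroupOf, hu']
      exact mem_cj hd
    have h8 : ((j * k * j⁻¹ : stb φ) : GQ) s = s := (hε _).1 (hy _ h6 h5)
    rw [hu'] at h8
    have h9 : g⁻¹ (h (g s)) = s := h8
    have h10 : g (g⁻¹ (h (g s))) = h (g s) := g.apply_symm_apply _
    rw [← h10, h9]

end Pool.Agent.MD
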