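import Pool.Agent.LD.L.Fld
import Pool.Agent.LD.L.Defs

/-!
# MD/P-Rt: square roots in the fixed field of a stabilizer

PLAN.  `exists_rootX`: `s` is fixed by `stb ψ`.  The range of `ψ` (as an intermediate field `F'` of `AlgebraicClosure ℚ / ℚ`, `ψ.toRatAlgHom.fieldRange`) is the fixed field of its fixing group (`InfiniteGalois.fixedField_fixingSubgroup`; the extension is Galois, see the
first lines of LD/L/Fld.lean), and the fixing group of `F'` is `stb ψ`.  So `s = ψ θ`, `ψ (θ²) = ψ (algebraMap x)`.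
-/

namespace Pool.Agent.MD

open NumberField IsDedekindDomain Pool.Agent.HWR Pool.Agent.QD Pool.Agent.H73.DU
  Pool.Agent.H73.AL Pool.Agent.LD

private theorem rt_alg_cl (inst : Algebra ℚ (AlgebraicClosure ℚ)) :
    IsAlgClosure ℚ (AlgebraicClosure ℚ) := by
  have h : inst = AlgebraicClosure.instAlgebra ℚ := Subsingleton.elim _ _
  subst h
  infer_instance

private theorem rt_isGal : IsGalois ℚ (AlgebraicClosure ℚ) := by
  have : IsAlgClosure ℚ (AlgebraicClosure ℚ) := rt_alg_cl inferInstance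
  have : Normal ℚ (AlgebraicClosure ℚ) := IsAlgClosure.normal ℚ _
  exact {}

theorem exists_rootX (K F : NF) [Algebra K.F F.F] (φ : K.F →+* AlgebraicClosure ℚ)
    (ψ : F.F →+* AlgebraicClosure ℚ) (hψ : ψ.comp (algebraMap K.F F.F) = φ) (x : (K.F)ˣ)
    (s : AlgebraicClosure ℚ) (hs : s ^ 2 = φ (x : K.F)) (h : ∀ g ∈ stb ψ, g s = s) :
    ∃ θ : F.F, θ ^ 2 = algebraMap K.F F.F (x : K.F) := by
  have := rt_isGal
  obtain ⟨F', hF'⟩ : ∃ F' : IntermediateField ℚ (AlgebraicClosure ℚ),
      F' = (ψ.toRatAlgHom).fieldRange := ⟨_, rfl⟩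
  have hmem : s ∈ IntermediateField.fixedField F'.fixingSubgroup := by
    rw [IntermediateField.mem_fixedField_iff]
    intro g hg
    apply h g
    show g ∈ MulAction.stabilizer GQ ψ
    rw [MulAction.mem_stabilizer_iff]
    ext y
    have h1 := (IntermediateField.mem_fixingSubgroup_iff F' g).1 hg
    exact h1 (ψ y) (by rw [hF']; exact ⟨y, rfl⟩)
  rw [InfiniteGalois.fixedField_fixingSubgroup, hF'] at hmem
  obtain ⟨θ, hθ⟩ := hmem
  have hθ' : ψ θ = s := hθ
  refine ⟨θ, ψ.injective ?_⟩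
  rw [map_pow, hθ', hs, ← hψ]
  rfl

end Pool.Agent.MD
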