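import Pool.Agent.MD.P.Pt
import Pool.Agent.MD.P.Rt
import Pool.Agent.MD.P.Sum

/-!
# MD/P-RealA: the fields of the relation, I

PLAN.  `fldX`: `exists_fld K φ ((stabilizer (stb φ) x0).map (stb φ).subtype)` as in `rk_real` (LD/L/RelK.lean), with `TSet.index`, `TSet.op`, `TSet.pc_stab`.
`real2`: `X = X2 D`, `n = 2`, `x0 = ⟨1⟩`: an element of the stabilizer has `ε = 1` (`X2.smul_def`), so it fixes `s`; `exists_rootX`, `two_dvd` (LD/L/Deg), `oddW_zero`.  `real6`: `X6 D`, `n = 6`, the same with `x0 = ⟨0, 1⟩`.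
-/

namespace Pool.Agent.MD

open NumberField IsDedekindDomain Pool.Agent.HWR Pool.Agent.QD Pool.Agent.H73.DU
  Pool.Agent.H73.AL Pool.Agent.LD

theorem fldX (K : NF) (φ : K.F →+* AlgebraicClosure ℚ) (X : Type) [MulAction (stb φ) X] {n : ℕ}
    (hX : TSet (stb φ) X n) (x0 : X) :
    ∃ (F : NF) (_ : Algebra K.F F.F) (ψ : F.F →+* AlgebraicClosure ℚ),
      ψ.comp (algebraMap K.F F.F) = φ ∧
        stb ψ = (MulAction.stabilizer (stb φ) x0).map (stb φ).subtype ∧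
        Module.finrank K.F F.F = n ∧ RX φ X F := by
  have hJo : IsOpen (stb φ : Set GQ) := stab_open K.F φ
  have ho : IsOpen (MulAction.stabilizer (stb φ) x0 : Set (stb φ)) := hX.op x0
  obtain ⟨F, alg, ψ, h1, h2, h3, h4⟩ := exists_fld K φ
    ((MulAction.stabilizer (stb φ) x0).map (stb φ).subtype) (open_map hJo ho)
    (Subgroup.map_subtype_le _) (n := n) (by rw [Subgroup.index_map_subtype, hX.index x0])
  exact ⟨F, alg, ψ, h1, h2, h4, _, ho, hX.pc_stab x0, h3⟩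

/-- a transitive set on which the stabilizer of some point fixes `s` -/
private theorem real_of (K : NF) (φ : K.F →+* AlgebraicClosure ℚ) (x : (K.F)ˣ)
    (s : AlgebraicClosure ℚ) (hs : s ^ 2 = φ (x : K.F)) (D : CocD (stb φ))
    (hε : ∀ g : stb φ, D.ε g = 1 ↔ (g : GQ) s = s) (W : Finset (HeightOneSpectrum (𝓞 K.F)))
    (hx : ∀ w ∈ W, ¬ LSq w x) (X : Type) [MulAction (stb φ) X] (n : ℕ) (hn : n ∣ 18) (hn2 : 2 ≤ n)
    (hX : TSet (stb φ) X n) (x0 : X) (h0 : ∀ g : stb φ, g • x0 = x0 → D.ε g = 1) :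
    ∃ F : NF, OkF K W F ∧ RX φ X F := by
  obtain ⟨F, alg, ψ, h1, h2, h3, h4⟩ := fldX K φ X hX x0
  have hfix : ∀ g ∈ stb ψ, g s = s := by
    intro g hg
    rw [h2] at hg
    obtain ⟨j, hj, rfl⟩ := Subgroup.mem_map.1 hg
    exact (hε j).1 (h0 j (MulAction.mem_stabilizer_iff.1 hj))
  obtain ⟨θ, hθ⟩ := exists_rootX K F φ ψ h1 x s hs hfix
  refine ⟨F, ⟨alg, ?_, ?_, fun w hw => ?_⟩, h4⟩
  · rw [h3]
    exact hn
  · rw [h3]
    exact hn2
  · have h5 : oddW F.F w = 0 := oddW_zero F.F w fun w' hw' =>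
      two_dvd F.F x θ hθ w (hx w hw) w' hw'
    rw [h5, mul_zero]
    exact Nat.zero_le _

section

variable (K : NF) (φ : K.F →+* AlgebraicClosure ℚ) (x : (K.F)ˣ)
  (s : AlgebraicClosure ℚ) (hs : s ^ 2 = φ (x : K.F)) (D : CocD (stb φ)) (hD : D.Good)
  (hε : ∀ g : stb φ, D.ε g = 1 ↔ (g : GQ) s = s) (W : Finset (HeightOneSpectrum (𝓞 K.F)))
  (hx : ∀ w ∈ W, ¬ LSq w x) (hW : ∀ w ∈ W, Refl φ D w)

include hs hD hε hx hW

theorem real2 : ∃ F : NF, OkF K W F ∧ RX φ (X2 D) F := by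
  refine real_of K φ x s hs D hε W hx (X2 D) 2 (by norm_num) le_rfl (ts2 hD) ⟨1⟩ fun g hg => ?_
  rw [X2.smul_def, X2.mk.injEq, mul_one] at hg
  exact hg

theorem real6 : ∃ F : NF, OkF K W F ∧ RX φ (X6 D) F := by
  refine real_of K φ x s hs D hε W hx (X6 D) 6 (by norm_num) (by norm_num) (ts6 hD) ⟨0, 1⟩
    fun g hg => ?_
  rw [X6.smul_def, X6.mk.injEq, mul_one] at hg
  exact hg.2

end

end Pool.Agent.MD
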