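import Pool.Agent.MD.P.RealA

/-!
# MD/P-RealB: the fields of the relation, II

PLAN.  `real3`: `fldX` with any `x0`, `even_pt` with `bp3`, `oddW_three`.
`real9`: `x0 = ⟨0, 0⟩ : X9 D`, `x1 = ⟨0⟩ : X3 D 1 0`; the stabilizer of `x0` is contained in the stabilizer of `x1`.  `fldX` for `x1`: `F3`, `ψ3`.  `exists_fld F3 ψ3 H9` with `H9 = (stabilizer x0).map ≤ stb ψ3`, index `3 * (stb ψ3).index`
(`Subgroup.index_map_subtype`, `9 = 3 * 3`): `F9`, `ψ9`, degree `3` over `F3`.  Algebra structure of `F9` over `K`: composition, `IsScalarTower.of_algebraMap_eq'`; degree `9` (`Module.finrank_mul_finrank`); `even_pt` with `F3`, `oddW_three`,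
`oddW_tower`: `oddW F9 w ≤ 3 * oddW F3 w ≤ 3`.
-/

namespace Pool.Agent.MD

open NumberField IsDedekindDomain Pool.Agent.HWR Pool.Agent.QD Pool.Agent.H73.DU
  Pool.Agent.H73.AL Pool.Agent.LD

section

variable (K : NF) (φ : K.F →+* AlgebraicClosure ℚ) (x : (K.F)ˣ)
  (s : AlgebraicClosure ℚ) (hs : s ^ 2 = φ (x : K.F)) (D : CocD (stb φ)) (hD : D.Good)
  (hε : ∀ g : stb φ, D.ε g = 1 ↔ (g : GQ) s = s) (W : Finset (HeightOneSpectrum (𝓞 K.F)))
  (hx : ∀ w ∈ W, ¬ LSq w x) (hW : ∀ w ∈ W, Refl φ D w)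

include hs hD hε hx hW

theorem real3 (c1 c2 : ZMod 3) (hc : ¬ (c1 = 0 ∧ c2 = 0)) :
    ∃ F : NF, OkF K W F ∧ RX φ (X3 D c1 c2) F := by
  have hts := ts3 hD c1 c2 hc
  obtain ⟨F, alg, ψ, h1, h2, h3, h4⟩ := fldX K φ (X3 D c1 c2) hts ⟨0⟩
  refine ⟨F, ⟨alg, ?_, ?_, ?_⟩, h4⟩
  · rw [h3]
    norm_num
  · rw [h3]
    norm_num
  · intro w hw
    have h5 := oddW_three F.F w h3 (even_pt K φ x s hs D hε w (hx w hw) (hW w hw)
      (X3 D c1 c2) hts (bp3 D c1 c2) F ψ h1 ⟨0⟩ h2)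
    rw [h3]
    omega

theorem real9 : ∃ F : NF, OkF K W F ∧ RX φ (X9 D) F := by
  have hc : ¬ ((1 : ZMod 3) = 0 ∧ (0 : ZMod 3) = 0) := by decide
  have hts3 := ts3 hD 1 0 hc
  have hts9 := ts9 hD
  have hJo : IsOpen (stb φ : Set GQ) := stab_open K.F φ
  obtain ⟨F3, alg3, ψ3, a1, a2, a3, -⟩ := fldX K φ (X3 D 1 0) hts3 ⟨0⟩
  have hle : (MulAction.stabilizer (stb φ) (⟨0, 0⟩ : X9 D)).map (stb φ).subtype ≤ stb ψ3 := by
    rw [a2]
    refine Subgroup.map_mono fun g hg => ?_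
    rw [MulAction.mem_stabilizer_iff, X9.smul_def] at hg
    rw [MulAction.mem_stabilizer_iff, X3.smul_def]
    have h1 := congrArg X9.a hg
    dsimp only at h1
    rw [mul_zero, zero_add] at h1
    ext
    dsimp only
    rw [h1]
    ring
  have hi9 : ((MulAction.stabilizer (stb φ) (⟨0, 0⟩ : X9 D)).map (stb φ).subtype).index =
      9 * (stb φ).index := by
    rw [Subgroup.index_map_subtype, hts9.index]
  have hi3 : (stb ψ3).index = 3 * (stb φ).index := by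
    rw [a2, Subgroup.index_map_subtype, hts3.index]
  obtain ⟨F9, alg9, ψ9, b1, b2, b3, b4⟩ := exists_fld F3 ψ3 _ (open_map hJo (hts9.op ⟨0, 0⟩)) hle
    (n := 3) (by rw [hi9, hi3]; ring)
  let algK : Algebra K.F F9.F :=
    ((algebraMap F3.F F9.F).comp (algebraMap K.F F3.F)).toAlgebra
  have hsc : IsScalarTower K.F F3.F F9.F := IsScalarTower.of_algebraMap_eq' rfl
  have h9 : Module.finrank K.F F9.F = 9 := by
    rw [← Module.finrank_mul_finrank K.F F3.F F9.F, a3, b4]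
  refine ⟨F9, ⟨algK, ?_, ?_, ?_⟩, MulAction.stabilizer (stb φ) (⟨0, 0⟩ : X9 D), hts9.op _,
    hts9.pc_stab _, b3⟩
  · rw [h9]
    norm_num
  · rw [h9]
    norm_num
  · intro w hw
    have h5 := oddW_three F3.F w a3 (even_pt K φ x s hs D hε w (hx w hw) (hW w hw)
      (X3 D 1 0) hts3 (bp3 D 1 0) F3 ψ3 a1 ⟨0⟩ a2)
    have h6 := oddW_tower F3.F F9.F w
    rw [b4] at h6
    rw [h9]
    omega

end

end Pool.Agent.MD
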