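import Pool.Agent.MD.P.RealB
import Pool.Agent.LD.L.Marks

/-!
# MD/P-Rel: the relation between `K` and extensions in which most places over `W` have even local degree

PLAN.  Copy of the second half of the proof of `rel_even` (LD/L/RelK.lean), with `exists_refl`, `real2`, `real6`, `real3 (1,0), (0,1), (1,1), (1,2)`, `real9` and `marks_rel`; the relation is `Rel T (K :: [F9, F2, Fa]) [Fb, Fc, Fd, F6]`.
Some embedding `φ` exists (`AlgebraicClosure ℚ` is algebraically closed; e.g. `exists_emb` or `IsAlgClosed.lift`, `Inhabited`).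
-/

namespace Pool.Agent.MD

open NumberField IsDedekindDomain Pool.Agent.HWR Pool.Agent.QD Pool.Agent.H73.DU
  Pool.Agent.H73.AL Pool.Agent.LD

private theorem ro_ind_congr (T : Finset ℕ) (J : Subgroup GQ) [Fintype (GQ ⧸ J)]
    (f g : Subgroup J → ℤ) (h : ∀ V ∈ res J (famT T), f V = g V) (U : Subgroup GQ)
    (hU : U ∈ famT T) : ind J f U = ind J g U := by
  classical
  change (∑ x : GQ ⧸ J, _) = (∑ x : GQ ⧸ J, _)
  refine Finset.sum_congr rfl fun x _ => ?_
  split_ifs with hx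
  · apply h
    change ((cj x.out U).subgroupOf J).map J.subtype ∈ famT T
    rw [Subgroup.subgroupOf_map_subtype, inf_eq_left.2 hx]
    exact (nice_rat T).conj U hU _
  · rfl

private theorem ro_alg (inst : Algebra ℚ (AlgebraicClosure ℚ)) :
    IsAlgClosure ℚ (AlgebraicClosure ℚ) := by
  have h : inst = AlgebraicClosure.instAlgebra ℚ := Subsingleton.elim _ _
  subst h
  infer_instance

private theorem ro_emb (K : Type) [Field K] [NumberField K] :
    ∃ _ : K →+* AlgebraicClosure ℚ, True := by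
  have hcl : IsAlgClosure ℚ (AlgebraicClosure ℚ) := ro_alg inferInstance
  have hal : IsAlgClosed (AlgebraicClosure ℚ) := inferInstance
  let φ1 : K →ₐ[ℚ] AlgebraicClosure ℚ := IsAlgClosed.lift
  exact ⟨φ1.toRingHom, trivial⟩

theorem rel_ok (T : Finset ℕ) (K : NF) (W : Finset (HeightOneSpectrum (𝓞 K.F))) (x : (K.F)ˣ)
    (hx : ∀ w ∈ W, ¬ LSq w x) (hne : W.Nonempty) :
    ∃ A B : List NF, (∀ F ∈ A ++ B, OkF K W F) ∧ Rel T (K :: A) B := by
  classical
  obtain ⟨φ, -⟩ := ro_emb K.F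
  obtain ⟨s, D, hs, hD, hε, hDU, hW⟩ := exists_refl T K φ W x hx hne
  have hJo : IsOpen (stb φ : Set GQ) := stab_open K.F φ
  have hG := nice_rat T
  have hGJ := hG.sub hJo
  obtain ⟨F9, e9, H9, o9, c9, m9⟩ := real9 K φ x s hs D hD hε W hx hW
  obtain ⟨F2, e2, H2, o2, c2, m2⟩ := real2 K φ x s hs D hD hε W hx hW
  obtain ⟨F6, e6, H6, o6, c6, m6⟩ := real6 K φ x s hs D hD hε W hx hW
  obtain ⟨Fa, ea, Ha, oa, ca, ma⟩ := real3 K φ x s hs D hD hε W hx hW 1 0 (by decide)
  obtain ⟨Fb, eb, Hb, ob, cb, mb⟩ := real3 K φ x s hs D hD hε W hx hW 0 1 (by decide)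
  obtain ⟨Fc, ec, Hc, oc, cc, mc⟩ := real3 K φ x s hs D hD hε W hx hW 1 1 (by decide)
  obtain ⟨Fd, ed, Hd, od, cd, md⟩ := real3 K φ x s hs D hD hε W hx hW 1 2 (by decide)
  refine ⟨[F9, F2, Fa], [Fb, Fc, Fd, F6], ?_, ?_⟩
  · intro F hF
    simp only [List.cons_append, List.nil_append, List.mem_cons, List.not_mem_nil,
      or_false] at hF
    rcases hF with rfl | rfl | rfl | rfl | rfl | rfl | rfl
    · exact e9
    · exact e2
    · exact ea
    · exact eb
    · exact ec
    · exact ed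
    · exact e6
  · intro U hU
    have := hG.fin hJo
    have : Fintype (GQ ⧸ stb φ) := Fintype.ofFinite _
    have key := ro_ind_congr T (stb φ)
      (1 + pch (stb φ) (X9 D) + pch (stb φ) (X2 D) + pch (stb φ) (X3 D 1 0))
      (pch (stb φ) (X3 D 0 1) + pch (stb φ) (X3 D 1 1) + pch (stb φ) (X3 D 1 2) +
        pch (stb φ) (X6 D)) (fun V hV => marks_rel D V (hDU V hV)) U hU
    have hm : ∀ (H : Subgroup (stb φ)), IsOpen (H : Set (stb φ)) → ind (stb φ) (pc H) =
        pc (H.map (stb φ).subtype) := by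
      intro H hH
      have := hGJ.fin hH
      exact ind_pc (stb φ) H
    simp only [map_add, Pi.add_apply] at key
    rw [ind_one, ← c9, ← c2, ← ca, ← cb, ← cc, ← cd, ← c6, hm _ o9, hm _ o2, hm _ oa, hm _ ob,
      hm _ oc, hm _ od, hm _ o6, ← m9, ← m2, ← ma, ← mb, ← mc, ← md, ← m6] at key
    have hK : mark K.F = pc (stb φ) := mark_eq_pc K.F φ
    rw [← hK] at key
    simp only [List.map_cons, List.map_nil, List.sum_cons, List.sum_nil]
    linarith

end Pool.Agent.MD
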