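import Pool.Agent.MD.P.Defs
import Pool.Agent.LD.L.Orb

/-!
# MD/P-TSet: the sets of the relation are transitive, base points

The proofs are in LD/L/Orb.lean (`good9`, `good3`, `good2`, `good6`: the three parts openness, transitivity, points; `card9`, `card3`, `card2`, `card6`, `lin_aux`, `eps_surj` are private there: copy them).  `pc_stab`: as in `good_of`.
`triv_of'`: copy of the private `triv_of` (LD/L/Orb).
-/

namespace Pool.Agent.MD

open Pool.Agent.H73.DU MulAction Pool.Agent.LD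

variable {J : Type} [Group J]

private theorem unit_aux : ∀ e e' : (ZMod 3)ˣ, e ≠ 1 → e' ≠ 1 → e = e' := by decide

private theorem unit_aux2 : ∀ e : (ZMod 3)ˣ, e ≠ 1 → ((e : ZMod 3) - 1) = 1 := by decide

private theorem lin_aux : ∀ c1 c2 t : ZMod 3, ¬ (c1 = 0 ∧ c2 = 0) →
    ∃ a b : ZMod 3, c1 * a + c2 * b = t := by decide

private theorem coc_triv (D : CocD J) (z : J → ZMod 3)
    (hz : ∀ g h, z (g * h) = z g + (D.ε g : ZMod 3) * z h) (g : J) (hg : D.ε g ≠ 1) :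
    ∀ u ∈ Subgroup.zpowers g, z u = ((D.ε u : ZMod 3) - 1) * z g := by
  have hz1 : z 1 = 0 := by
    have h := hz 1 1
    rw [mul_one, map_one, Units.val_one, one_mul] at h
    exact left_eq_add.1 h
  intro u hu
  have hle : Subgroup.zpowers g ≤ Subgroup.closure {g} := (Subgroup.zpowers_eq_closure g).le
  have hu' := hle hu
  induction hu' using Subgroup.closure_induction with
  | mem x hx =>
    rw [Set.mem_singleton_iff.1 hx, unit_aux2 _ hg, one_mul]
  | one => rw [hz1, map_one, Units.val_one, sub_self, zero_mul]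
  | mul x y hx hy h1 h2 =>
    have hx' : x ∈ Subgroup.zpowers g := by
      rw [Subgroup.zpowers_eq_closure]
      exact hx
    have hy' : y ∈ Subgroup.zpowers g := by
      rw [Subgroup.zpowers_eq_closure]
      exact hy
    rw [hz, h1 hx', h2 hy', map_mul, Units.val_mul]
    ring
  | inv x hx h1 =>
    have hx' : x ∈ Subgroup.zpowers g := by
      rw [Subgroup.zpowers_eq_closure]
      exact hx
    have h3 := hz x⁻¹ x
    rw [inv_mul_cancel, hz1, h1 hx'] at h3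
    have h4 : (D.ε x⁻¹ : ZMod 3) * (D.ε x : ZMod 3) = 1 := by
      rw [← Units.val_mul, ← map_mul, inv_mul_cancel, map_one, Units.val_one]
    have h5 : z x⁻¹ = - ((D.ε x⁻¹ : ZMod 3) * (((D.ε x : ZMod 3) - 1) * z g)) := by
      rw [eq_neg_iff_add_eq_zero]
      exact h3.symm
    rw [h5]
    calc - ((D.ε x⁻¹ : ZMod 3) * (((D.ε x : ZMod 3) - 1) * z g))
        = ((D.ε x⁻¹ : ZMod 3) - (D.ε x⁻¹ : ZMod 3) * (D.ε x : ZMod 3)) * z g := by ring
      _ = _ := by rw [h4]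

private theorem card9 (D : CocD J) : Nat.card (X9 D) = 9 := by
  have e : X9 D ≃ ZMod 3 × ZMod 3 :=
    ⟨fun x => (x.a, x.b), fun x => ⟨x.1, x.2⟩, fun _ => rfl, fun _ => rfl⟩
  rw [Nat.card_congr e]
  simp [Nat.card_eq_fintype_card]

private theorem card3 (D : CocD J) (c1 c2 : ZMod 3) : Nat.card (X3 D c1 c2) = 3 := by
  have e : X3 D c1 c2 ≃ ZMod 3 := ⟨fun x => x.a, fun x => ⟨x⟩, fun _ => rfl, fun _ => rfl⟩
  rw [Nat.card_congr e]
  simp [Nat.card_eq_fintype_card]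

private theorem cardU : Nat.card (ZMod 3)ˣ = 2 := by
  rw [Nat.card_eq_fintype_card]
  decide

private theorem card2 (D : CocD J) : Nat.card (X2 D) = 2 := by
  have e : X2 D ≃ (ZMod 3)ˣ := ⟨fun x => x.e, fun x => ⟨x⟩, fun _ => rfl, fun _ => rfl⟩
  rw [Nat.card_congr e, cardU]

private theorem card6 (D : CocD J) : Nat.card (X6 D) = 6 := by
  have e : X6 D ≃ ZMod 3 × (ZMod 3)ˣ :=
    ⟨fun x => (x.a, x.e), fun x => ⟨x.1, x.2⟩, fun _ => rfl, fun _ => rfl⟩
  rw [Nat.card_congr e, Nat.card_prod, cardU, Nat.card_eq_fintype_card, ZMod.card]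

theorem triv_of' (D : CocD J) (U : Subgroup J) (hU : Cyc U ∨ D.Triv U)
    (hne : ∃ u ∈ U, D.ε u ≠ 1) : D.Triv U := by
  rcases hU with ⟨g, rfl⟩ | h
  · have hg : D.ε g ≠ 1 := by
      intro h
      obtain ⟨u, hu, hu1⟩ := hne
      obtain ⟨k, rfl⟩ := Subgroup.mem_zpowers_iff.1 hu
      exact hu1 (by rw [map_zpow, h, one_zpow])
    exact ⟨D.z1 g, D.z2 g, fun u hu => ⟨coc_triv D D.z1 D.h1 g hg u hu,
      coc_triv D D.z2 D.h2 g hg u hu⟩⟩
  · exact h

variable [TopologicalSpace J] [IsTopologicalGroup J]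

theorem TSet.pc_stab {X : Type} [MulAction J X] {n : ℕ} (h : TSet J X n) (x : X) :
    pc (stabilizer J x) = pch J X := by
  unfold pc
  refine pch_congr (Equiv.ofBijective (MulAction.ofQuotientStabilizer J x)
    ⟨MulAction.injective_ofQuotientStabilizer J x, fun y => ?_⟩) fun g y => ?_
  · obtain ⟨g, hg⟩ := h.tr x y
    exact ⟨(g : J ⧸ MulAction.stabilizer J x), hg⟩
  · exact MulAction.ofQuotientStabilizer_smul J x g y

theorem TSet.index {X : Type} [MulAction J X] {n : ℕ} (h : TSet J X n) (x : X) :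
    (stabilizer J x).index = n := by
  rw [index_stabilizer]
  have h1 : orbit J x = Set.univ := Set.eq_univ_iff_forall.2 fun y => h.tr x y
  rw [h1, Set.ncard_univ, h.card]

omit [IsTopologicalGroup J] in
private theorem eps_surj [TopologicalSpace J] {D : CocD J} (hD : D.Good) (e : (ZMod 3)ˣ) :
    ∃ g, D.ε g = e := by
  by_cases he : e = 1
  · exact ⟨1, by rw [map_one, he]⟩
  · obtain ⟨g, hg⟩ := hD.ne
    exact ⟨g, unit_aux _ _ hg he⟩

variable {D : CocD J} (hD : D.Good)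

include hD

theorem ts9 : TSet J (X9 D) 9 := by
  refine ⟨fun x y => ?_, fun x => ?_, card9 D⟩
  · obtain ⟨n, h1, h2, h3⟩ := hD.surj (y.a - x.a) (y.b - x.b)
    refine ⟨n, ?_⟩
    rw [X9.smul_def, h1, h2, h3]
    ext
    · simp
    · simp
  · obtain ⟨W, hW, hWz⟩ := hD.op
    refine Subgroup.isOpen_mono ?_ hW
    intro u hu
    obtain ⟨h1, h2, h3⟩ := hWz u hu
    rw [mem_stabilizer_iff, X9.smul_def, h1, h2, h3]
    simp

theorem ts3 (c1 c2 : ZMod 3) (hc : ¬ (c1 = 0 ∧ c2 = 0)) : TSet J (X3 D c1 c2) 3 := by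
  refine ⟨fun x y => ?_, fun x => ?_, card3 D c1 c2⟩
  · obtain ⟨a, b, hab⟩ := lin_aux c1 c2 (y.a - x.a) hc
    obtain ⟨n, h1, h2, h3⟩ := hD.surj a b
    refine ⟨n, ?_⟩
    rw [X3.smul_def, h1, h2, h3, hab]
    ext
    simp
  · obtain ⟨W, hW, hWz⟩ := hD.op
    refine Subgroup.isOpen_mono ?_ hW
    intro u hu
    obtain ⟨h1, h2, h3⟩ := hWz u hu
    rw [mem_stabilizer_iff, X3.smul_def, h1, h2, h3]
    simp

theorem ts2 : TSet J (X2 D) 2 := by
  refine ⟨fun x y => ?_, fun x => ?_, card2 D⟩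
  · obtain ⟨g, hg⟩ := eps_surj hD (y.e * x.e⁻¹)
    refine ⟨g, ?_⟩
    rw [X2.smul_def, hg, inv_mul_cancel_right]
  · obtain ⟨W, hW, hWz⟩ := hD.op
    refine Subgroup.isOpen_mono ?_ hW
    intro u hu
    obtain ⟨h1, h2, h3⟩ := hWz u hu
    rw [mem_stabilizer_iff, X2.smul_def, h1, one_mul]

theorem ts6 : TSet J (X6 D) 6 := by
  refine ⟨fun x y => ?_, fun x => ?_, card6 D⟩
  · obtain ⟨g, hg⟩ := eps_surj hD (y.e * x.e⁻¹)
    obtain ⟨n, h1, h2, h3⟩ := hD.surj (y.a - ((D.ε g : ZMod 3) * x.a + D.z1 g)) 0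
    refine ⟨n * g, ?_⟩
    rw [mul_smul, X6.smul_def, X6.smul_def, h1, h2]
    ext
    · simp
    · simp [hg]
  · obtain ⟨W, hW, hWz⟩ := hD.op
    refine Subgroup.isOpen_mono ?_ hW
    intro u hu
    obtain ⟨h1, h2, h3⟩ := hWz u hu
    rw [mem_stabilizer_iff, X6.smul_def, h1, h2]
    simp

omit hD in
omit [TopologicalSpace J] [IsTopologicalGroup J] in
theorem bp3 (D : CocD J) (c1 c2 : ZMod 3) : Bp D (X3 D c1 c2) := by
  rintro U ⟨t1, t2, ht⟩
  refine ⟨⟨-(c1 * t1 + c2 * t2) + 1⟩, ?_⟩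
  intro u hu h
  rw [X3.smul_def, (ht u hu).1, (ht u hu).2] at h
  have h1 := congrArg X3.a h
  simp only at h1
  apply Units.ext
  rw [Units.val_one]
  linear_combination h1

end Pool.Agent.MD
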